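import Pool.Agent.Q298.Mim.Main

/-!
# No lattice mimicry of the sine process beyond the bandwidth `(1 - a) / a`

For `a > 1/2` no point process on `a ℤ` with uniform local moments mimics the sine process at a
bandwidth `B > max (0, (1 - a) / a)`. In particular no pair of the set `U` of the problem admits
mimicry.

Outline of the proof (idea of helper276). There is a trigonometric polynomial `v`, of bandwidth
less than `B`, which is nonnegative on `a ℤ`, and a function `f` with Fourier support in
`[-1/2, 1/2]` such that `∫ v |f|² < 0`. Hence there is a nonnegative band limited weight `w`, which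
is at most one on `a ℤ`, such that the sine kernel compressed by `w` has an eigenvalue larger than
one. So its Fredholm determinant vanishes somewhere in `(0, 1)`, but by mimicry it equals the
expectation of the positive product of the numbers `1 - s w(u_j)`.
-/

set_option autoImplicit false

namespace Pool.Agent.Results.MP_0e0b55_pr.NoMimicry

open MeasureTheory
open scoped FourierTransform SchwartzMap ENNReal

universe u

/-- A point process on `ℝ`, defined on a measurable space `Ω`: the point with index `j` exists on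
the event `live j`, and there it has the position `pos j`. Several points may have the same
position. -/
structure PointProcess (Ω : Type u) [MeasurableSpace Ω] where
  live : ℕ → Set Ω
  pos : ℕ → Ω → ℝ
  measurableSet_live : ∀ j, MeasurableSet (live j)
  measurable_pos : ∀ j, Measurable (pos j)

variable {Ω : Type u} [MeasurableSpace Ω]

/-- The number of points in the set `A`. -/
noncomputable def PointProcess.count (X : PointProcess Ω) (A : Set ℝ) (ω : Ω) : ℝ≥0∞ :=
  ∑' j, (X.live j ∩ X.pos j ⁻¹' A).indicator 1 ω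

/-- Uniform local moments: `sup_x E [#(u ∩ [x, x + 1]) ^ k] < ∞` for all `k ≥ 1`. -/
def PointProcess.ULM (X : PointProcess Ω) (P : Measure Ω) : Prop :=
  ∀ k : ℕ, 1 ≤ k → ∃ C : ℝ≥0∞, C ≠ ∞ ∧ ∀ x : ℝ,
    ∫⁻ ω, X.count (Set.Icc x (x + 1)) ω ^ k ∂P ≤ C

/-- Almost surely all points lie in `a ℤ`. -/
def PointProcess.OnLattice (X : PointProcess Ω) (P : Measure Ω) (a : ℝ) : Prop :=
  ∀ᵐ ω ∂P, ∀ j, ω ∈ X.live j → ∃ k : ℤ, X.pos j ω = a * k

/-- The sum of `η` over the `n`-tuples of points with pairwise distinct indices. -/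
noncomputable def PointProcess.sumDistinct (X : PointProcess Ω) (n : ℕ)
    (η : EuclideanSpace ℝ (Fin n) → ℂ) (ω : Ω) : ℂ :=
  ∑' f : Fin n ↪ ℕ, {ω | ∀ i, ω ∈ X.live (f i)}.indicator
    (fun ω => η (WithLp.toLp 2 fun i => X.pos (f i) ω)) ω

/-- The `n`-point correlation function `det [S(x_i - x_j)]`, `S(x) = sin (π x) / (π x)`, of the
sine process. -/
noncomputable def sineCorrelation (n : ℕ) (x : EuclideanSpace ℝ (Fin n)) : ℝ :=
  (Matrix.of fun i j : Fin n => Real.sinc (Real.pi * (x i - x j))).det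

/-- The point process mimics the sine process at bandwidth `B`. -/
def PointProcess.MimicsSine (X : PointProcess Ω) (P : Measure Ω) (B : ℝ) : Prop :=
  ∀ n : ℕ, 1 ≤ n → ∀ η : 𝓢(EuclideanSpace ℝ (Fin n), ℂ),
    tsupport (𝓕 η : 𝓢(EuclideanSpace ℝ (Fin n), ℂ)) ⊆ {ξ | ∀ i, ξ i ∈ Set.Icc (-B) B} →
    ∫ ω, X.sumDistinct n η ω ∂P =
      ∫ x : EuclideanSpace ℝ (Fin n), η x * (sineCorrelation n x : ℂ)

/-- The pair `(a, B)` admits mimicry: some point process with uniform local moments whose points
lie almost surely in `a ℤ` mimics the sine process at bandwidth `B`. -/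
def AdmitsMimicry (a B : ℝ) : Prop :=
  ∃ (Ω : Type u) (_ : MeasurableSpace Ω) (P : Measure Ω) (_ : IsProbabilityMeasure P)
    (X : PointProcess Ω), X.ULM P ∧ X.OnLattice P a ∧ X.MimicsSine P B

/-- The set of the undecided pairs. -/
def U : Set (ℝ × ℝ) :=
  {p | (1 / 2 < p.1 ∧ p.1 ≤ 1 ∧ (1 - p.1) / p.1 < p.2 ∧ p.2 < 1 / (2 * p.1)) ∨
    (1 < p.1 ∧ 0 < p.2 ∧ p.2 < 1 / (2 * p.1))}

/-- **Theorem.** No pair of `U` admits mimicry. More generally, for `a > 1/2` no pair `(a, B)` with
`B > 0` and `B > (1 - a) / a` admits mimicry. -/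
theorem result : (∀ p ∈ U, ¬ AdmitsMimicry.{u} p.1 p.2) ∧
    ∀ a B : ℝ, 1 / 2 < a → 0 < B → (1 - a) / a < B → ¬ AdmitsMimicry.{u} a B := by
  have main : ∀ a B : ℝ, 1 / 2 < a → 0 < B → (1 - a) / a < B → ¬ AdmitsMimicry.{u} a B := by
    rintro a B ha hB haB ⟨Ω, _, P, _, X, hulm, hlat, hmim⟩
    refine Q298.Mim.no_mimicry P X.live X.pos X.measurableSet_live X.measurable_pos hulm a B ha hB
      haB hlat ?_
    intro n hn η hη
    apply hmim n hn η
    apply closure_minimal
    · intro ξ hξ i
      exact abs_le.mp (hη ξ hξ i)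
    · have h : {ξ : EuclideanSpace ℝ (Fin n) | ∀ i, ξ i ∈ Set.Icc (-B) B} =
          ⋂ i, (fun ξ : EuclideanSpace ℝ (Fin n) => ξ i) ⁻¹' Set.Icc (-B) B := by
        ext ξ
        simp
      rw [h]
      exact isClosed_iInter fun i => isClosed_Icc.preimage (by fun_prop)
  refine ⟨?_, main⟩
  rintro ⟨a, B⟩ (⟨h1, h2, h3, h4⟩ | ⟨h1, h2, h3⟩)
  · simp only at h1 h2 h3 h4
    refine main a B h1 (lt_of_le_of_lt ?_ h3) h3
    exact div_nonneg (by linarith) (by linarith)
  · simp only at h1 h2 h3
    refine main a B (by linarith) h2 (lt_trans ?_ h2)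
    exact div_neg_of_neg_of_pos (by linarith) (by linarith)

end Pool.Agent.Results.MP_0e0b55_pr.NoMimicry
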